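import Pool.Agent.H95.CM.Targets

/-!
Row NF2 of the board cm4_modules (`MP_52e316_nt`): the norm form of a quadratic extension.
-/

set_option autoImplicit false

open MeasureTheory Set Filter NumberField
open scoped Real nonZeroDivisors
open Pool.Agent.H65.CM4
open Pool.Agent.H95.CM
open Pool.Agent.H31.CN (IsLf)
open Pool.Agent.H61.FM (CC pv)

namespace Pool.Agent.H72.CM4

/-- the norm is a quadratic form -/
theorem norm_quad {k K : Type} [Field k] [Field K] [Algebra k K]
    (h2 : Module.finrank k K = 2) (v w : K) :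
    ∃ q : k, ∀ x y : k, Algebra.norm k (algebraMap k K x * v + algebraMap k K y * w) =
        Algebra.norm k v * x ^ 2 + q * (x * y) + Algebra.norm k w * y ^ 2 := by
  haveI : FiniteDimensional k K := FiniteDimensional.of_finrank_pos (by rw [h2]; norm_num)
  let b : Module.Basis (Fin 2) k K := Module.finBasisOfFinrankEq k K h2
  set A := Algebra.leftMulMatrix b v with hA
  set B := Algebra.leftMulMatrix b w with hB
  refine ⟨A 0 0 * B 1 1 + B 0 0 * A 1 1 - A 0 1 * B 1 0 - B 0 1 * A 1 0, ?_⟩
  intro x y
  have e : algebraMap k K x * v + algebraMap k K y * w = x • v + y • w := by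
    rw [Algebra.smul_def, Algebra.smul_def]
  rw [e, Algebra.norm_eq_matrix_det b, Algebra.norm_eq_matrix_det b v,
    Algebra.norm_eq_matrix_det b w, map_add, map_smul, map_smul, ← hA, ← hB,
    Matrix.det_fin_two, Matrix.det_fin_two, Matrix.det_fin_two]
  simp only [Matrix.add_apply, Matrix.smul_apply, smul_eq_mul]
  ring

theorem pf_NF2 (hNTP : T_NTP) : T_NF2 := by
  intro k K _ _ _ _ _ _ _ _ v w hvw
  obtain ⟨q, hq⟩ := norm_quad (k := k) (K := K)
    (Algebra.IsQuadraticExtension.finrank_eq_two k K) v w
  have hpos := (hNTP k K).1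
  refine ⟨Algebra.norm k v, q, Algebra.norm k w, rfl, rfl, hq, ?_⟩
  intro j
  have hv : v ≠ 0 := by
    intro h0
    have := (hvw 1 0 (by rw [h0]; simp)).1
    exact one_ne_zero this
  have hp : 0 < rv j (Algebra.norm k v) := hpos v hv j
  refine ⟨hp, ?_⟩
  have hz : algebraMap k K (-q) * v + algebraMap k K (2 * Algebra.norm k v) * w ≠ 0 := by
    intro h0
    have h1 := (hvw _ _ h0).2
    have h2 : Algebra.norm k v = 0 := by
      rcases mul_eq_zero.mp h1 with h | h
      · exact absurd h two_ne_zero
      · exact h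
    rw [h2, map_zero] at hp
    exact lt_irrefl _ hp
  have h1 := hpos _ hz j
  rw [hq] at h1
  have e : Algebra.norm k v * (-q) ^ 2 + q * (-q * (2 * Algebra.norm k v)) +
      Algebra.norm k w * (2 * Algebra.norm k v) ^ 2 =
      Algebra.norm k v * (4 * (Algebra.norm k v * Algebra.norm k w) - q ^ 2) := by ring
  rw [e, map_mul] at h1
  exact (mul_pos_iff_of_pos_left hp).mp h1

end Pool.Agent.H72.CM4
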