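import Pool.Agent.H95.CM.Targets
import Pool.Agent.H72.CM4.CNF2

/-!
Row RDX of the board cm4_modules (`MP_52e316_nt`): every ideal has a reduced pair.
-/

set_option autoImplicit false

open MeasureTheory Set Filter NumberField
open scoped Real nonZeroDivisors
open Pool.Agent.H65.CM4
open Pool.Agent.H95.CM
open Pool.Agent.H31.CN (IsLf)
open Pool.Agent.H61.FM (CC pv)

namespace Pool.Agent.H72.CM4

theorem prod_cmp {ι : Type} [Fintype ι] (n : ℕ) (hn : Fintype.card ι = n) (c : ℝ) (D : ι → ℝ)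
    (hc : 0 ≤ c) (hD : ∀ i, 0 < D i) (h : ∀ i j, D i ≤ c * D j) (i : ι) :
    D i ^ n ≤ c ^ n * ∏ j, D j ∧ ∏ j, D j ≤ c ^ n * D i ^ n := by
  constructor
  · calc D i ^ n = ∏ _j : ι, D i := by rw [Finset.prod_const, Finset.card_univ, hn]
      _ ≤ ∏ j, (c * D j) := Finset.prod_le_prod (fun j _ => (hD i).le) (fun j _ => h i j)
      _ = c ^ n * ∏ j, D j := by
        rw [Finset.prod_mul_distrib, Finset.prod_const, Finset.card_univ, hn]
  · calc ∏ j, D j ≤ ∏ _j : ι, (c * D i) :=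
        Finset.prod_le_prod (fun j _ => (hD j).le) (fun j _ => h j i)
      _ = c ^ n * D i ^ n := by rw [Finset.prod_const, Finset.card_univ, hn, mul_pow]

theorem prod_const_le {ι : Type} [Fintype ι] (n : ℕ) (hn : Fintype.card ι = n) (a : ℝ) (f : ι → ℝ)
    (ha : 0 ≤ a) (h : ∀ i, a ≤ f i) : a ^ n ≤ ∏ i, f i := by
  calc a ^ n = ∏ _j : ι, a := by rw [Finset.prod_const, Finset.card_univ, hn]
    _ ≤ ∏ j, f j := Finset.prod_le_prod (fun j _ => ha) (fun j _ => h j)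

theorem prod_le_const {ι : Type} [Fintype ι] (n : ℕ) (hn : Fintype.card ι = n) (a : ℝ) (f : ι → ℝ)
    (h0 : ∀ i, 0 ≤ f i) (h : ∀ i, f i ≤ a) : ∏ i, f i ≤ a ^ n := by
  calc ∏ i, f i ≤ ∏ _j : ι, a := Finset.prod_le_prod (fun j _ => h0 j) (fun j _ => h j)
    _ = a ^ n := by rw [Finset.prod_const, Finset.card_univ, hn]

theorem rdx_real {ι : Type} [Fintype ι] (n : ℕ) (hn : Fintype.card ι = n) (hn0 : n ≠ 0)
    (C C3 b b1 b2 dk T X y ix : ℝ) (μ Q1 Q2 D : ι → ℝ)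
    (hC : 1 ≤ C) (hC3 : 1 ≤ C3) (hb1 : 1 ≤ b1) (hb2 : 1 ≤ b2) (hb : b = b1 ^ 2 * b2)
    (hdk : 1 ≤ dk) (hT : 0 < T) (hy : 0 < y)
    (hμ1 : ∀ i, T / b ≤ μ i) (hμ2 : ∀ i, μ i ≤ C3 * T / b)
    (hQ1 : ∀ i, 0 < Q1 i) (hD0 : ∀ i, 0 < D i)
    (hp : ∀ i j, μ i * Q1 i ≤ C * (μ j * Q1 j))
    (hDD : ∀ i j, μ i ^ 2 * D i ≤ C * (μ j ^ 2 * D j))
    (hq : ∀ i, μ i * |Q2 i| ≤ C * (μ i * Q1 i))
    (hprod : ∏ i, (b1 ^ 2 * (μ i * Q1 i)) ≤ C * (y ^ n * T ^ n))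
    (hcov : (T ^ n) ^ 2 * X = ix ^ 2 * dk ^ 2 * (∏ i, μ i) ^ 2 * ∏ i, D i)
    (hix1 : 1 ≤ ix) (hix2 : ix ≤ b ^ (2 * n)) (hX : (y ^ 2) ^ n = X) (j0 : ι) :
    0 < Q1 j0 ∧ Q1 j0 ≤ C ^ 2 * C3 ^ 4 * b ^ 2 * dk ^ 2 * y ∧
    (∀ i, Q1 j0 / (C ^ 2 * C3 ^ 4 * b ^ 2 * dk ^ 2) ≤ Q1 i ∧
      Q1 i ≤ C ^ 2 * C3 ^ 4 * b ^ 2 * dk ^ 2 * Q1 j0) ∧
    (∀ i, |Q2 i| ≤ C ^ 2 * C3 ^ 4 * b ^ 2 * dk ^ 2 * Q1 i) ∧
    ∀ i, y ^ 2 / (C ^ 2 * C3 ^ 4 * b ^ 2 * dk ^ 2) ≤ D i ∧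
      D i ≤ C ^ 2 * C3 ^ 4 * b ^ 2 * dk ^ 2 * y ^ 2 := by
  have hC0 : 0 < C := by linarith
  have hC30 : 0 < C3 := by linarith
  have hb10 : 0 < b1 := by linarith
  have hb20 : 0 < b2 := by linarith
  have hdk0 : 0 < dk := by linarith
  have hb0 : 0 < b := by rw [hb]; positivity
  have hbb : 1 ≤ b := by
    rw [hb]
    exact one_le_mul_of_one_le_of_one_le (one_le_pow₀ hb1) hb2
  have hb2b : b2 ≤ b := by
    rw [hb]
    have : 1 ≤ b1 ^ 2 := one_le_pow₀ hb1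
    nlinarith
  have hTb : 0 < T / b := by positivity
  have hμ0 : ∀ i, 0 < μ i := fun i => hTb.trans_le (hμ1 i)
  set B : ℝ := C ^ 2 * C3 ^ 4 * b ^ 2 * dk ^ 2 with hB
  have hB0 : 0 < B := by positivity
  -- comparison of the constants
  have c1 : (1 : ℝ) ≤ C ^ 1 := by rw [pow_one]; exact hC
  have k1 : C * C3 ≤ B := by
    have e : B = (C * C3) * (C * C3 ^ 3 * b ^ 2 * dk ^ 2) := by rw [hB]; ring
    rw [e]
    refine le_mul_of_one_le_right (by positivity) ?_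
    refine one_le_mul_of_one_le_of_one_le (one_le_mul_of_one_le_of_one_le
      (one_le_mul_of_one_le_of_one_le hC (one_le_pow₀ hC3)) (one_le_pow₀ hbb)) (one_le_pow₀ hdk)
  have k2 : C ≤ B := by
    have : C * 1 ≤ C * C3 := mul_le_mul_of_nonneg_left hC3 hC0.le
    linarith
  have k3 : C * C3 * C * b2 ≤ B := by
    have h1 : C * C3 * C * b2 ≤ C * C3 * C * b :=
      mul_le_mul_of_nonneg_left hb2b (by positivity)
    have e : B = (C * C3 * C * b) * (C3 ^ 3 * b * dk ^ 2) := by rw [hB]; ring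
    have h2 : C * C3 * C * b ≤ B := by
      rw [e]
      refine le_mul_of_one_le_right (by positivity) ?_
      exact one_le_mul_of_one_le_of_one_le (one_le_mul_of_one_le_of_one_le (one_le_pow₀ hC3) hbb)
        (one_le_pow₀ hdk)
    linarith
  have k4 : C * C3 ^ 2 * b ^ 2 ≤ B := by
    have e : B = (C * C3 ^ 2 * b ^ 2) * (C * C3 ^ 2 * dk ^ 2) := by rw [hB]; ring
    rw [e]
    refine le_mul_of_one_le_right (by positivity) ?_
    exact one_le_mul_of_one_le_of_one_le (one_le_mul_of_one_le_of_one_le hC (one_le_pow₀ hC3))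
      (one_le_pow₀ hdk)
  have k5 : b ^ 2 * dk ^ 2 * C3 ^ 2 * (C * C3 ^ 2) ≤ B := by
    have e : B = (b ^ 2 * dk ^ 2 * C3 ^ 2 * (C * C3 ^ 2)) * C := by rw [hB]; ring
    rw [e]
    exact le_mul_of_one_le_right (by positivity) hC
  -- the comparisons
  have hQ : ∀ i j, Q1 i ≤ C * C3 * Q1 j := by
    intro i j
    have h1 : T / b * Q1 i ≤ T / b * (C * C3 * Q1 j) := by
      calc T / b * Q1 i ≤ μ i * Q1 i := mul_le_mul_of_nonneg_right (hμ1 i) (hQ1 i).le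
        _ ≤ C * (μ j * Q1 j) := hp i j
        _ ≤ C * (C3 * T / b * Q1 j) := mul_le_mul_of_nonneg_left
            (mul_le_mul_of_nonneg_right (hμ2 j) (hQ1 j).le) hC0.le
        _ = T / b * (C * C3 * Q1 j) := by ring
    exact le_of_mul_le_mul_left h1 hTb
  have hDc : ∀ i j, D i ≤ C * C3 ^ 2 * D j := by
    intro i j
    have h1 : (T / b) ^ 2 * D i ≤ (T / b) ^ 2 * (C * C3 ^ 2 * D j) := by
      calc (T / b) ^ 2 * D i ≤ μ i ^ 2 * D i :=
            mul_le_mul_of_nonneg_right (pow_le_pow_left₀ hTb.le (hμ1 i) 2) (hD0 i).le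
        _ ≤ C * (μ j ^ 2 * D j) := hDD i j
        _ ≤ C * ((C3 * T / b) ^ 2 * D j) := mul_le_mul_of_nonneg_left
            (mul_le_mul_of_nonneg_right (pow_le_pow_left₀ (hμ0 j).le (hμ2 j) 2) (hD0 j).le) hC0.le
        _ = (T / b) ^ 2 * (C * C3 ^ 2 * D j) := by ring
    exact le_of_mul_le_mul_left h1 (by positivity)
  have hyn : 0 < y ^ n := by positivity
  have hTn : 0 < T ^ n := by positivity
  have hCn : C ≤ C ^ n := le_self_pow₀ hC hn0
  refine ⟨hQ1 j0, ?_, ?_, ?_, ?_⟩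
  · -- the bound of `h`
    have h1 := (prod_cmp n hn (C * C3) Q1 (by positivity) hQ1 hQ j0).1
    have h2 : (b1 ^ 2 * (T / b)) ^ n * ∏ i, Q1 i ≤ C * (y ^ n * T ^ n) := by
      refine le_trans ?_ hprod
      have e : (b1 ^ 2 * (T / b)) ^ n * ∏ i, Q1 i = ∏ i, (b1 ^ 2 * (T / b) * Q1 i) := by
        rw [Finset.prod_mul_distrib, Finset.prod_const, Finset.card_univ, hn]
      rw [e]
      refine Finset.prod_le_prod (fun i _ => ?_) (fun i _ => ?_)
      · have := hQ1 i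
        positivity
      · rw [mul_assoc]
        exact mul_le_mul_of_nonneg_left (mul_le_mul_of_nonneg_right (hμ1 i) (hQ1 i).le)
          (by positivity)
    have e1 : b1 ^ 2 * (T / b) = T / b2 := by
      rw [hb]
      field_simp
    rw [e1, div_pow] at h2
    have h3 : ∏ i, Q1 i ≤ C * y ^ n * b2 ^ n := by
      have h4 : T ^ n * ∏ i, Q1 i ≤ T ^ n * (C * y ^ n * b2 ^ n) := by
        have h5 : T ^ n / b2 ^ n * (∏ i, Q1 i) * b2 ^ n ≤ C * (y ^ n * T ^ n) * b2 ^ n :=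
          mul_le_mul_of_nonneg_right h2 (by positivity)
        have e2 : T ^ n / b2 ^ n * (∏ i, Q1 i) * b2 ^ n = T ^ n * ∏ i, Q1 i := by
          field_simp
        rw [e2] at h5
        refine h5.trans (le_of_eq ?_)
        ring
      exact le_of_mul_le_mul_left h4 hTn
    have h6 : Q1 j0 ^ n ≤ (C * C3 * C * b2 * y) ^ n := by
      refine h1.trans ?_
      calc (C * C3) ^ n * ∏ j, Q1 j ≤ (C * C3) ^ n * (C ^ n * y ^ n * b2 ^ n) := by
            refine mul_le_mul_of_nonneg_left (h3.trans ?_) (by positivity)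
            exact mul_le_mul_of_nonneg_right (mul_le_mul_of_nonneg_right hCn hyn.le)
              (by positivity)
        _ = (C * C3 * C * b2 * y) ^ n := by
            rw [mul_pow (C * C3 * C * b2) y, mul_pow (C * C3 * C) b2, mul_pow (C * C3) C]
            ring
    have h7 : Q1 j0 ≤ C * C3 * C * b2 * y :=
      (pow_le_pow_iff_left₀ (hQ1 j0).le (by positivity) hn0).mp h6
    exact h7.trans (mul_le_mul_of_nonneg_right k3 hy.le)
  · intro i
    constructor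
    · rw [div_le_iff₀ hB0]
      calc Q1 j0 ≤ C * C3 * Q1 i := hQ j0 i
        _ ≤ B * Q1 i := mul_le_mul_of_nonneg_right k1 (hQ1 i).le
        _ = Q1 i * B := mul_comm _ _
    · exact (hQ i j0).trans (mul_le_mul_of_nonneg_right k1 (hQ1 j0).le)
  · intro i
    have h1 : μ i * |Q2 i| ≤ μ i * (C * Q1 i) := (hq i).trans (le_of_eq (by ring))
    have h2 : |Q2 i| ≤ C * Q1 i := le_of_mul_le_mul_left h1 (hμ0 i)
    exact h2.trans (mul_le_mul_of_nonneg_right k2 (hQ1 i).le)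
  · intro i
    have hM1 : (T / b) ^ n ≤ ∏ i, μ i := prod_const_le n hn _ _ hTb.le hμ1
    have hM2 : ∏ i, μ i ≤ (C3 * T / b) ^ n :=
      prod_le_const n hn _ _ (fun i => (hμ0 i).le) hμ2
    have hM0 : 0 < ∏ i, μ i := Finset.prod_pos fun i _ => hμ0 i
    have hPD : 0 < ∏ i, D i := Finset.prod_pos fun i _ => hD0 i
    obtain ⟨q1, q2⟩ := prod_cmp n hn (C * C3 ^ 2) D (by positivity) hD0 hDc i
    have hyn2 : 0 < (y ^ 2) ^ n := by positivity
    have hbn : 0 < b ^ n := by positivity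
    have hX0 : 0 < X := by rw [← hX]; positivity
    constructor
    · -- the lower bound
      have h1 : (T ^ n) ^ 2 * X ≤ (b ^ (2 * n)) ^ 2 * dk ^ 2 * ((C3 * T / b) ^ n) ^ 2 *
          ∏ i, D i := by
        rw [hcov]
        refine mul_le_mul_of_nonneg_right ?_ hPD.le
        refine mul_le_mul (mul_le_mul_of_nonneg_right (pow_le_pow_left₀ (by linarith) hix2 2)
          (by positivity)) (pow_le_pow_left₀ hM0.le hM2 2) (by positivity) (by positivity)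
      have e1 : (b ^ (2 * n)) ^ 2 * dk ^ 2 * ((C3 * T / b) ^ n) ^ 2 =
          (T ^ n) ^ 2 * ((b ^ n) ^ 2 * dk ^ 2 * (C3 ^ n) ^ 2) := by
        rw [div_pow, mul_pow, pow_mul, show b ^ 2 = b * b from sq b, mul_pow]
        field_simp
      rw [e1, mul_assoc] at h1
      have h2 : X ≤ (b ^ n) ^ 2 * dk ^ 2 * (C3 ^ n) ^ 2 * ∏ i, D i :=
        le_of_mul_le_mul_left h1 (by positivity)
      have h3 : dk ^ 2 ≤ (dk ^ 2) ^ n := le_self_pow₀ (one_le_pow₀ hdk) hn0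
      have h4 : (y ^ 2) ^ n ≤ (b ^ 2 * dk ^ 2 * C3 ^ 2 * (C * C3 ^ 2) * D i) ^ n := by
        rw [hX]
        refine h2.trans ?_
        calc (b ^ n) ^ 2 * dk ^ 2 * (C3 ^ n) ^ 2 * ∏ i, D i
            ≤ (b ^ n) ^ 2 * (dk ^ 2) ^ n * (C3 ^ n) ^ 2 * ((C * C3 ^ 2) ^ n * D i ^ n) := by
              refine mul_le_mul (mul_le_mul_of_nonneg_right (mul_le_mul_of_nonneg_left h3
                (by positivity)) (by positivity)) q2 hPD.le (by positivity)
          _ = (b ^ 2 * dk ^ 2 * C3 ^ 2 * (C * C3 ^ 2) * D i) ^ n := by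
              rw [mul_pow _ (D i), mul_pow (b ^ 2 * dk ^ 2 * C3 ^ 2), mul_pow (b ^ 2 * dk ^ 2),
                mul_pow (b ^ 2), ← pow_mul b, ← pow_mul b, ← pow_mul C3 n 2, ← pow_mul C3 2 n,
                mul_comm n 2]
              ring
      have hDi := hD0 i
      have h5 : y ^ 2 ≤ b ^ 2 * dk ^ 2 * C3 ^ 2 * (C * C3 ^ 2) * D i :=
        (pow_le_pow_iff_left₀ (by positivity) (by positivity) hn0).mp h4
      rw [div_le_iff₀ hB0]
      calc y ^ 2 ≤ b ^ 2 * dk ^ 2 * C3 ^ 2 * (C * C3 ^ 2) * D i := h5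
        _ ≤ B * D i := mul_le_mul_of_nonneg_right k5 hDi.le
        _ = D i * B := mul_comm _ _
    · -- the upper bound
      have h1 : ((T / b) ^ n) ^ 2 * ∏ i, D i ≤ (T ^ n) ^ 2 * X := by
        rw [hcov]
        refine mul_le_mul_of_nonneg_right ?_ hPD.le
        have h2 : (1 : ℝ) ≤ ix ^ 2 * dk ^ 2 :=
          one_le_mul_of_one_le_of_one_le (one_le_pow₀ hix1) (one_le_pow₀ hdk)
        calc ((T / b) ^ n) ^ 2 ≤ (∏ i, μ i) ^ 2 := pow_le_pow_left₀ (by positivity) hM1 2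
          _ ≤ ix ^ 2 * dk ^ 2 * (∏ i, μ i) ^ 2 := le_mul_of_one_le_left (by positivity) h2
      have e1 : ((T / b) ^ n) ^ 2 * ∏ i, D i = (T ^ n) ^ 2 * ((∏ i, D i) / (b ^ n) ^ 2) := by
        rw [div_pow, div_pow]
        ring
      rw [e1] at h1
      have h2 : (∏ i, D i) / (b ^ n) ^ 2 ≤ X := le_of_mul_le_mul_left h1 (by positivity)
      rw [div_le_iff₀ (by positivity)] at h2
      have h4 : D i ^ n ≤ (C * C3 ^ 2 * b ^ 2 * y ^ 2) ^ n := by
        refine q1.trans ?_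
        calc (C * C3 ^ 2) ^ n * ∏ j, D j ≤ (C * C3 ^ 2) ^ n * (X * (b ^ n) ^ 2) :=
              mul_le_mul_of_nonneg_left h2 (by positivity)
          _ = (C * C3 ^ 2 * b ^ 2 * y ^ 2) ^ n := by
              rw [mul_pow _ (y ^ 2), mul_pow _ (b ^ 2), hX, ← pow_mul b, ← pow_mul b,
                mul_comm n 2]
              ring
      have h5 : D i ≤ C * C3 ^ 2 * b ^ 2 * y ^ 2 :=
        (pow_le_pow_iff_left₀ (hD0 i).le (by positivity) hn0).mp h4
      exact h5.trans (mul_le_mul_of_nonneg_right k4 (by positivity))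

theorem card_Pl (k : Type) [Field k] [NumberField k] [IsTotallyReal k] :
    Fintype.card (Pl k) = dg k := by
  unfold dg
  rw [IsTotallyReal.finrank, InfinitePlace.card_eq_nrRealPlaces_add_nrComplexPlaces,
    IsTotallyReal.nrComplexPlaces_eq_zero, add_zero]

theorem pf_RDX (hVWB : T_VWB) (hQFX : T_QFX) (hTPE : T_TPE) (hCVF : T_CVF) (hNTP : T_NTP)
    (hIXL : T_IXL) : T_RDX := by
  intro k _ _ _
  obtain ⟨b1, C, hb1, hC, hV⟩ := hVWB k
  obtain ⟨C3, hC3, hT3⟩ := hTPE k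
  have hn0 : 0 < dg k := Module.finrank_pos
  have hcard : Fintype.card (Pl k) = dg k := card_Pl k
  set b2 : ℕ := (⌈C3 ^ dg k⌉₊).factorial with hb2
  have hb2pos : 0 < b2 := Nat.factorial_pos _
  have hdk : 1 ≤ (dk k : ℝ) := by
    have h1 : 0 < dk k := Int.natAbs_pos.mpr (discr_ne_zero k)
    exact_mod_cast h1
  have hbpos : 0 < b1 ^ 2 * b2 := by positivity
  have hbR : (1 : ℝ) ≤ ((b1 ^ 2 * b2 : ℕ) : ℝ) := by exact_mod_cast hbpos
  refine ⟨b1 ^ 2 * b2, C ^ 2 * C3 ^ 4 * ((b1 ^ 2 * b2 : ℕ) : ℝ) ^ 2 * (dk k : ℝ) ^ 2, hbpos, ?_, ?_⟩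
  · exact one_le_mul_of_one_le_of_one_le (one_le_mul_of_one_le_of_one_le
      (one_le_mul_of_one_le_of_one_le (one_le_pow₀ hC) (one_le_pow₀ hC3)) (one_le_pow₀ hbR))
      (one_le_pow₀ hdk)
  intro K _ _ _ _ _ I hI
  have h2 : Module.finrank k K = 2 := Algebra.IsQuadraticExtension.finrank_eq_two k K
  obtain ⟨v, hvI, w, hwI, hind, hgen, hvn, hpqr⟩ := hV K I hI
  obtain ⟨hN1, hN2, hN3⟩ := hNTP k K
  have hm : Ideal.relNorm (𝓞 k) I ≠ ⊥ := by
    rw [Ne, Ideal.relNorm_eq_bot_iff]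
    exact hI
  obtain ⟨ν, hνm, hν⟩ := hT3 _ hm
  have hnm : nm (Ideal.relNorm (𝓞 k) I) = nm I := by
    unfold nm
    rw [Ideal.absNorm_relNorm]
  rw [hnm] at hν
  have hnI : 0 < nm I := by
    unfold nm
    have h1 : Ideal.absNorm I ≠ 0 := by
      rw [Ne, Ideal.absNorm_eq_zero_iff]
      exact hI
    exact_mod_cast Nat.pos_of_ne_zero h1
  set T : ℝ := nm I ^ (1 / (dg k : ℝ)) with hT
  have hTpos : 0 < T := Real.rpow_pos_of_pos hnI _
  have hdgR : (dg k : ℝ) ≠ 0 := by exact_mod_cast hn0.ne'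
  have hTn : T ^ dg k = nm I := by
    rw [hT, ← Real.rpow_natCast, ← Real.rpow_mul hnI.le, one_div_mul_cancel hdgR, Real.rpow_one]
  have hνpos : ∀ j : Pl k, 0 < rv j (ν : k) := fun j => hTpos.trans_le (hν j).1
  have hdiv : ∀ m : ℕ, m * Ideal.absNorm (Ideal.relNorm (𝓞 k) I) = Ideal.absNorm (Ideal.span {ν}) →
      m ∣ b2 := by
    intro m hm'
    have h1 : ((Ideal.absNorm (Ideal.span {ν}) : ℕ) : ℝ) = ∏ j : Pl k, rv j (ν : k) := by
      have h3 := hN2 (ν : k)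
      rw [Ideal.absNorm_span_singleton]
      have h4 : (((Algebra.norm ℤ ν).natAbs : ℕ) : ℝ) =
          |((Algebra.norm ℚ (ν : k) : ℚ) : ℝ)| := by
        rw [← Algebra.coe_norm_int, Rat.cast_intCast, ← Int.cast_abs, Nat.cast_natAbs]
      rw [h4, ← h3]
      exact Finset.prod_congr rfl fun j _ => abs_of_pos (hνpos j)
    have h3 : (m : ℝ) * nm I = ∏ j : Pl k, rv j (ν : k) := by
      rw [← h1, ← hm', ← hnm]
      unfold nm
      push_cast
      rfl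
    have h4 : ∏ j : Pl k, rv j (ν : k) ≤ (C3 * T) ^ dg k :=
      prod_le_const _ hcard _ _ (fun j => (hνpos j).le) (fun j => (hν j).2)
    rw [← h3, mul_pow, hTn] at h4
    have h5 : (m : ℝ) ≤ C3 ^ dg k := le_of_mul_le_mul_right h4 hnI
    have h6 : 0 < m := by
      rcases Nat.eq_zero_or_pos m with h | h
      · exfalso
        rw [h, Nat.cast_zero, zero_mul] at h3
        exact (Finset.prod_pos fun j _ => hνpos j).ne h3
      · exact h
    exact Nat.dvd_factorial h6 (Nat.cast_le.mp (h5.trans (Nat.le_ceil _)))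
  obtain ⟨Q, hQ⟩ := hQFX k K I v w b1 b2 ν hI hvI hwI hind hb1 hb2pos hgen hνm hνpos hdiv
  refine ⟨(v : K) / b1, (w : K) / b1, (ν : k) / ((b1 ^ 2 * b2 : ℕ) : k),
    lt ((v : K) / b1) ((w : K) / b1) I, Q, hQ, ?_⟩
  obtain ⟨hpos, hcov⟩ := hCVF k K (b1 ^ 2 * b2) I _ _ _ _ Q hbpos hI hQ
  set M : La k := lt ((v : K) / b1) ((w : K) / b1) I with hM
  set μ : k := (ν : k) / ((b1 ^ 2 * b2 : ℕ) : k) with hμ
  have hb1K : (b1 : K) ≠ 0 := by exact_mod_cast hb1.ne'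
  obtain ⟨q, hq⟩ := norm_quad (k := k) (K := K) h2 ((v : K) / b1) ((w : K) / b1)
  have hα : Algebra.norm k ((v : K) / b1) = μ * (Q.1 : k) := by
    have h := hQ.nrm (1, 0)
    have e1 : lin ((v : K) / b1) ((w : K) / b1) ((1, 0) : V2 k) = (v : K) / b1 := by
      simp [lin]
    have e2 : val Q ((1, 0) : V2 k) = Q.1 := by simp [val]
    rwa [e1, e2] at h
  have hβ : Algebra.norm k ((w : K) / b1) = μ * (Q.2.2 : k) := by
    have h := hQ.nrm (0, 1)
    have e1 : lin ((v : K) / b1) ((w : K) / b1) ((0, 1) : V2 k) = (w : K) / b1 := by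
      simp [lin]
    have e2 : val Q ((0, 1) : V2 k) = Q.2.2 := by simp [val]
    rwa [e1, e2] at h
  have hqe : q = μ * (Q.2.1 : k) := by
    have h := hQ.nrm (1, 1)
    have e1 : lin ((v : K) / b1) ((w : K) / b1) ((1, 1) : V2 k) =
        algebraMap k K 1 * ((v : K) / b1) + algebraMap k K 1 * ((w : K) / b1) := by
      simp [lin]
    have e2 : ((val Q ((1, 1) : V2 k) : 𝓞 k) : k) = (Q.1 : k) + (Q.2.1 : k) + (Q.2.2 : k) := by
      have e3 : val Q ((1, 1) : V2 k) = Q.1 + Q.2.1 + Q.2.2 := by simp [val]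
      rw [e3]
      rfl
    rw [e1, e2, hq, hα, hβ] at h
    linear_combination h
  have hform : ∀ x y : k, Algebra.norm k (algebraMap k K x * (v : K) + algebraMap k K y * (w : K)) =
      ((b1 : k) ^ 2 * (μ * (Q.1 : k))) * x ^ 2 + ((b1 : k) ^ 2 * (μ * (Q.2.1 : k))) * (x * y) +
        ((b1 : k) ^ 2 * (μ * (Q.2.2 : k))) * y ^ 2 := by
    intro x y
    have e1 : algebraMap k K x * (v : K) + algebraMap k K y * (w : K) =
        algebraMap k K (b1 * x) * ((v : K) / b1) + algebraMap k K (b1 * y) * ((w : K) / b1) := by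
      rw [map_mul, map_mul, map_natCast]
      field_simp
    rw [e1, hq, hα, hβ, hqe]
    ring
  have hP := hpqr _ _ _ hform
  have hb1R : (0 : ℝ) < (b1 : ℝ) ^ 2 := by
    have : (0 : ℝ) < b1 := by exact_mod_cast hb1
    positivity
  have hrp : ∀ (i : Pl k) (t : k), rv i ((b1 : k) ^ 2 * (μ * t)) =
      (b1 : ℝ) ^ 2 * (rv i μ * rv i t) := by
    intro i t
    rw [map_mul, map_mul, map_pow, map_natCast]
  have hrd : ∀ i : Pl k, rv i (4 * ((b1 : k) ^ 2 * (μ * (Q.1 : k)) *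
      ((b1 : k) ^ 2 * (μ * (Q.2.2 : k)))) - ((b1 : k) ^ 2 * (μ * (Q.2.1 : k))) ^ 2) =
      (b1 : ℝ) ^ 4 * (rv i μ ^ 2 * rv i (dsc Q : k)) := by
    intro i
    have e0 : ((dsc Q : 𝓞 k) : k) = 4 * ((Q.1 : k) * (Q.2.2 : k)) - (Q.2.1 : k) ^ 2 := by
      have e2 : ((dsc Q : 𝓞 k) : k) =
          algebraMap (𝓞 k) k (4 * (Q.1 * Q.2.2) - Q.2.1 ^ 2) := rfl
      rw [e2, map_sub, map_mul, map_mul, map_pow, map_ofNat]
    have e1 : 4 * ((b1 : k) ^ 2 * (μ * (Q.1 : k)) *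
      ((b1 : k) ^ 2 * (μ * (Q.2.2 : k)))) - ((b1 : k) ^ 2 * (μ * (Q.2.1 : k))) ^ 2 =
        (b1 : k) ^ 4 * (μ ^ 2 * (dsc Q : k)) := by
      rw [e0]
      ring
    rw [e1, map_mul, map_mul, map_pow, map_pow, map_natCast]
  have hμv : ∀ i : Pl k, rv i μ = rv i (ν : k) / ((b1 ^ 2 * b2 : ℕ) : ℝ) := by
    intro i
    rw [hμ, map_div₀, map_natCast]
  have hbR0 : (0 : ℝ) < ((b1 ^ 2 * b2 : ℕ) : ℝ) := by linarith
  have hdK : 0 < |(discr K : ℝ)| := by
    rw [abs_pos]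
    exact_mod_cast discr_ne_zero K
  obtain ⟨hix0, hixle⟩ : ix M ≠ 0 ∧ ix M ≤ (b1 ^ 2 * b2) ^ (2 * dg k) := by
    have h := hIXL k (b1 ^ 2 * b2) M ⊤ hbpos hQ.bM top_ne_bot (top_sup_eq _)
    exact ⟨h.1, h.2.1⟩
  set y : ℝ := |(discr K : ℝ)| ^ (1 / (2 * dg k : ℝ)) with hy
  have hypos : 0 < y := Real.rpow_pos_of_pos hdK _
  have hyn : y ^ dg k = Real.sqrt |(discr K : ℝ)| := by
    rw [hy, ← Real.rpow_natCast, ← Real.rpow_mul hdK.le, Real.sqrt_eq_rpow]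
    congr 1
    field_simp
  have hy2n : (y ^ 2) ^ dg k = |(discr K : ℝ)| := by
    rw [← pow_mul, mul_comm, pow_mul, hyn, Real.sq_sqrt hdK.le]
  have hμ0 : ∀ i : Pl k, 0 < rv i μ := hQ.pos
  have hb1R4 : (0 : ℝ) < (b1 : ℝ) ^ 4 := by
    have : (0 : ℝ) < b1 := by exact_mod_cast hb1
    positivity
  obtain ⟨r1, r2, r3, r4, r5⟩ := rdx_real (dg k) hcard hn0.ne' C C3 ((b1 ^ 2 * b2 : ℕ) : ℝ) b1 b2
    (dk k) T |(discr K : ℝ)| y (ix M) (fun i : Pl k => rv i μ) (fun i => rv i (Q.1 : k))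
    (fun i => rv i (Q.2.1 : k)) (fun i => rv i (dsc Q : k)) hC hC3 (by exact_mod_cast hb1)
    (by exact_mod_cast hb2pos) (by push_cast; ring) hdk hTpos hypos
    (fun i => by
      show T / _ ≤ rv i μ
      rw [hμv i]
      exact div_le_div_of_nonneg_right (hν i).1 hbR0.le)
    (fun i => by
      show rv i μ ≤ _
      rw [hμv i]
      exact div_le_div_of_nonneg_right (hν i).2 hbR0.le)
    (fun i => (hpos i).1) (fun i => (hpos i).2)
    (fun i j => by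
      have h := (hP i j).1
      rw [hrp, hrp] at h
      have h3 : (b1 : ℝ) ^ 2 * (rv i μ * rv i (Q.1 : k)) ≤
          (b1 : ℝ) ^ 2 * (C * (rv j μ * rv j (Q.1 : k))) := h.trans (le_of_eq (by ring))
      exact le_of_mul_le_mul_left h3 hb1R)
    (fun i j => by
      have h := (hP i j).2.1
      rw [hrd, hrd] at h
      have h3 : (b1 : ℝ) ^ 4 * (rv i μ ^ 2 * rv i (dsc Q : k)) ≤
          (b1 : ℝ) ^ 4 * (C * (rv j μ ^ 2 * rv j (dsc Q : k))) := h.trans (le_of_eq (by ring))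
      exact le_of_mul_le_mul_left h3 hb1R4)
    (fun i => by
      have h := (hP i i).2.2
      rw [hrp, hrp, abs_mul, abs_mul, abs_of_pos hb1R, abs_of_pos (hμ0 i)] at h
      have h3 : (b1 : ℝ) ^ 2 * (rv i μ * |rv i (Q.2.1 : k)|) ≤
          (b1 : ℝ) ^ 2 * (C * (rv i μ * rv i (Q.1 : k))) := h.trans (le_of_eq (by ring))
      exact le_of_mul_le_mul_left h3 hb1R)
    (by
      have h := hform 1 0
      have e1 : algebraMap k K 1 * (v : K) + algebraMap k K 0 * (w : K) = (v : K) := by simp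
      have e2 : (b1 : k) ^ 2 * (μ * (Q.1 : k)) * 1 ^ 2 + (b1 : k) ^ 2 * (μ * (Q.2.1 : k)) * (1 * 0) +
        (b1 : k) ^ 2 * (μ * (Q.2.2 : k)) * 0 ^ 2 = (b1 : k) ^ 2 * (μ * (Q.1 : k)) := by ring
      rw [e1, e2] at h
      have h3 := hN3 (v : K)
      rw [h] at h3
      have e3 : ∏ i : Pl k, ((b1 : ℝ) ^ 2 * (rv i μ * rv i (Q.1 : k))) =
          ∏ i : Pl k, rv i ((b1 : k) ^ 2 * (μ * (Q.1 : k))) :=
        Finset.prod_congr rfl fun i _ => (hrp i _).symm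
      rw [e3, ← h3, hyn, hTn]
      exact hvn)
    (by rw [hTn]; exact hcov)
    (by exact_mod_cast Nat.one_le_iff_ne_zero.mpr hix0)
    (by exact_mod_cast hixle)
    hy2n (Classical.arbitrary (Pl k))
  exact ⟨hQ.bM, ⟨_, r1, r2, r3⟩, r4, r5⟩

end Pool.Agent.H72.CM4
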