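import Pool.Agent.H23.CM4.Targets

/-!
# The fourth moment, row MOS: the second moment with partial sums of the coefficients
-/

set_option autoImplicit false

open NumberField MeasureTheory Set Filter Complex
open scoped nonZeroDivisors Real
open Pool.Agent.H23.CM4
open Pool.Agent.H31.CN (IsLf)
open Pool.Agent.H61.FM (CC pv Sp)
open Pool.Agent.H65.CM4 (gG Kc Sq nm dg)
open Pool.Agent.H25.HK (FI Pri du)

namespace Pool.Agent.H72.CM4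

/-- Cauchy-Schwarz with the weights `ν B ^ (-1/2)` and `ν B ^ (1/2)`. -/
theorem csl {α : Type} (B : Finset α) (ν : α → ℝ) (hB : ∀ b ∈ B, 1 ≤ ν b) (z w : α → ℂ) :
    ‖∑ b ∈ B, z b * w b‖ ^ 2 ≤ (∑ b ∈ B, ν b ^ (-(1 / 2) : ℝ)) *
      ∑ b ∈ B, ν b ^ ((1 / 2) : ℝ) * ‖z b‖ ^ 2 * ‖w b‖ ^ 2 := by
  have h1 : ‖∑ b ∈ B, z b * w b‖ ≤ ∑ b ∈ B, ‖z b‖ * ‖w b‖ := by
    refine (norm_sum_le _ _).trans (le_of_eq ?_)
    exact Finset.sum_congr rfl (fun b _ => norm_mul _ _)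
  have h2 : ‖∑ b ∈ B, z b * w b‖ ^ 2 ≤ (∑ b ∈ B, ‖z b‖ * ‖w b‖) ^ 2 :=
    pow_le_pow_left₀ (norm_nonneg _) h1 2
  refine h2.trans ?_
  refine Finset.sum_sq_le_sum_mul_sum_of_sq_le_mul B ?_ ?_ ?_
  · intro b hb
    have := hB b hb
    positivity
  · intro b hb
    have := hB b hb
    positivity
  · intro b hb
    refine le_of_eq ?_
    have hb0 : (0 : ℝ) < ν b := by linarith [hB b hb]
    have e : ν b ^ (-(1 / 2) : ℝ) * ν b ^ ((1 / 2) : ℝ) = 1 := by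
      rw [← Real.rpow_add hb0]
      norm_num
    calc (‖z b‖ * ‖w b‖) ^ 2 = 1 * (‖z b‖ ^ 2 * ‖w b‖ ^ 2) := by ring
      _ = ν b ^ (-(1 / 2) : ℝ) * ν b ^ ((1 / 2) : ℝ) * (‖z b‖ ^ 2 * ‖w b‖ ^ 2) := by rw [e]
      _ = _ := by ring

section

variable {k : Type} [Field k] [NumberField k]

open Classical in
/-- the squarefree part of the partial sum -/
noncomputable def Wb {K : Type} [Field K] [NumberField K] [Algebra k K] (b : ℕ) (ψ : CC K) (x : ℝ)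
    (B : Ideal (𝓞 k)) : ℂ :=
  ∑ I ∈ Sq b (x / nm B), (if I ⊔ B = ⊤ then (1 : ℂ) else 0) * lr k ψ I

open Classical in
/-- the bound for one partial sum -/
theorem one (hMUL : T_MUL) (hSQD : T_SQD) (hSPR : T_SPR) (hJDM : T_JDM) {K : Type} [Field K]
    [NumberField K] [Algebra k K] (b : ℕ) (hb : 0 < b) (ψ : CC K) (x a : ℝ)
    (ha : ∀ B : Ideal (𝓞 k), B ≠ ⊥ → nm B ≤ x → ‖lr k ψ B‖ ≤ a) :
    ‖Sp ψ x‖ ^ 2 ≤ (∑ B ∈ (Jd k x).filter (Full b), nm B ^ (-(1 / 2) : ℝ)) *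
      ∑ B ∈ (Jd k x).filter (Full b), nm B ^ ((1 / 2) : ℝ) * a ^ 2 * ‖Wb b ψ x B‖ ^ 2 := by
  obtain ⟨hJ, hS, hn1, hnm, -⟩ := hJDM k
  have e : Sp ψ x = ∑ B ∈ (Jd k x).filter (Full b), lr k ψ B * Wb b ψ x B := by
    rw [hSPR k K ψ x, hSQD k b (lr k ψ) hb (hMUL k K ψ).2 x]
    refine Finset.sum_congr rfl ?_
    intro B _
    refine congrArg (fun t => lr k ψ B * t) ?_
    unfold Wb
    refine Finset.sum_congr rfl ?_
    intro m _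
    by_cases hm : m ⊔ B = ⊤
    · rw [if_pos hm, if_pos hm, one_mul]
    · rw [if_neg hm, if_neg hm, zero_mul]
  rw [e]
  have hB : ∀ B ∈ (Jd k x).filter (Full b), 1 ≤ nm B := by
    intro B hB
    exact hn1 B ((hJ x B).mp (Finset.mem_filter.mp hB).1).1
  refine (csl _ nm hB _ _).trans ?_
  refine mul_le_mul_of_nonneg_left ?_ ?_
  · refine Finset.sum_le_sum ?_
    intro B hBm
    have h1 := ((hJ x B).mp (Finset.mem_filter.mp hBm).1)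
    have h3 := ha B h1.1 h1.2
    have h4 : ‖lr k ψ B‖ ^ 2 ≤ a ^ 2 := pow_le_pow_left₀ (norm_nonneg _) h3 2
    have h5 := hB B hBm
    refine mul_le_mul_of_nonneg_right ?_ (by positivity)
    exact mul_le_mul_of_nonneg_left h4 (by positivity)
  · refine Finset.sum_nonneg (fun B hBm => ?_)
    have h5 := hB B hBm
    positivity

end

open Classical in
theorem pf_MOS (hTMF : T_TMF) (hMUL : T_MUL) (hSQD : T_SQD) (hSFS : T_SFS) (hDVB : T_DVB)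
    (hSPR : T_SPR) (hJDM : T_JDM) : T_MOS := by
  intro k _ _ _ ε hε
  obtain ⟨b, hb, hTMF'⟩ := hTMF k
  obtain ⟨κ, hκ0, hκ8, δ₀, hδ₀, C₀, j, hC₀, H⟩ := hTMF' ε hε
  obtain ⟨C₁, hC₁, hdv⟩ := hDVB k (ε / 8) (by linarith)
  obtain ⟨C₃, hC₃, hsf⟩ := hSFS k b (ε / 4) hb (by linarith)
  obtain ⟨hJ, hS, hn1, hnm, -⟩ := hJDM k
  refine ⟨κ, hκ0, hκ8, min δ₀ 1, lt_min hδ₀ one_pos, min_le_right _ _,
    C₃ ^ 2 * C₁ ^ 2 * C₀, j, by positivity, ?_⟩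
  intro s X x ι S K _ _ _ F hs hX hx hxX hF
  set B : Finset (Ideal (𝓞 k)) := (Jd k x).filter (Full b) with hBdef
  have hBn : ∀ I ∈ B, 1 ≤ nm I ∧ nm I ≤ x := by
    intro I hI
    have h := (hJ x I).mp (Finset.mem_filter.mp hI).1
    exact ⟨hn1 I h.1, h.2⟩
  set A : ℝ := ∑ I ∈ B, nm I ^ (-(1 / 2) : ℝ) with hA
  have hA0 : 0 ≤ A := Finset.sum_nonneg (fun I hI => by
    have := (hBn I hI).1
    positivity)
  have hAle : A ≤ C₃ * x ^ (ε / 4) := hsf x hx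
  set a : ℝ := C₁ * x ^ (ε / 8) with ha
  have hlm : ∀ i ∈ S, ∀ ψ : CC (K i), ∀ I : Ideal (𝓞 k), I ≠ ⊥ → nm I ≤ x →
      ‖lr k ψ I‖ ≤ a := by
    intro i hi ψ I hI hIx
    refine (hdv (K i) (hF.cm i hi) ψ I hI).trans ?_
    refine mul_le_mul_of_nonneg_left ?_ hC₁.le
    have := hn1 I hI
    exact Real.rpow_le_rpow (by positivity) hIx (by linarith)
  -- the bound for each ideal
  have hb1 : ∀ I ∈ B, ∑ i ∈ S, ∑ ψ : CC (K i), ‖Wb b ψ x I‖ ^ 2 * ‖F i ψ s‖ ^ 2 ≤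
      C₀ * (1 + |s.im|) ^ j * X ^ (3 / 2 + ε) * (x / nm I) := by
    intro I hI
    obtain ⟨hI1, hIx⟩ := hBn I hI
    have hI0 : 0 < nm I := by linarith
    have hN1 : 1 ≤ x / nm I := by rwa [le_div_iff₀ hI0, one_mul]
    have hNx : x / nm I ≤ x := div_le_self (by linarith) hI1
    have hNX : x / nm I ≤ X ^ ((1 + δ₀) / 2) := by
      refine (hNx.trans hxX).trans ?_
      refine Real.rpow_le_rpow_of_exponent_le hX ?_
      have := min_le_left δ₀ 1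
      linarith
    exact H s X (x / nm I) (fun m => if m ⊔ I = ⊤ then (1 : ℂ) else 0) ι S K F hs hX hN1 hNX
      (by
        intro m
        by_cases hm : m ⊔ I = ⊤
        · rw [if_pos hm]; simp
        · rw [if_neg hm]; simp) hF
  have hmain : ∑ i ∈ S, ∑ ψ : CC (K i), ‖Sp ψ x‖ ^ 2 * ‖F i ψ s‖ ^ 2 ≤
      A * ∑ I ∈ B, nm I ^ ((1 / 2) : ℝ) * a ^ 2 *
        ∑ i ∈ S, ∑ ψ : CC (K i), ‖Wb b ψ x I‖ ^ 2 * ‖F i ψ s‖ ^ 2 := by
    have e1 : ∑ i ∈ S, ∑ ψ : CC (K i), ‖Sp ψ x‖ ^ 2 * ‖F i ψ s‖ ^ 2 ≤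
        ∑ i ∈ S, ∑ ψ : CC (K i), (A * ∑ I ∈ B, nm I ^ ((1 / 2) : ℝ) * a ^ 2 *
          ‖Wb b ψ x I‖ ^ 2) * ‖F i ψ s‖ ^ 2 := by
      refine Finset.sum_le_sum ?_
      intro i hi
      refine Finset.sum_le_sum ?_
      intro ψ _
      refine mul_le_mul_of_nonneg_right ?_ (by positivity)
      exact one hMUL hSQD hSPR hJDM b hb ψ x a (hlm i hi ψ)
    refine e1.trans (le_of_eq ?_)
    rw [Finset.mul_sum]
    have e2 : ∀ i ∈ S, ∑ ψ : CC (K i), (A * ∑ I ∈ B, nm I ^ ((1 / 2) : ℝ) * a ^ 2 *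
          ‖Wb b ψ x I‖ ^ 2) * ‖F i ψ s‖ ^ 2 =
        ∑ I ∈ B, ∑ ψ : CC (K i), A * (nm I ^ ((1 / 2) : ℝ) * a ^ 2 *
          (‖Wb b ψ x I‖ ^ 2 * ‖F i ψ s‖ ^ 2)) := by
      intro i _
      rw [Finset.sum_comm]
      refine Finset.sum_congr rfl ?_
      intro ψ _
      rw [Finset.mul_sum, Finset.sum_mul]
      refine Finset.sum_congr rfl ?_
      intro I _
      ring
    rw [Finset.sum_congr rfl e2, Finset.sum_comm]
    refine Finset.sum_congr rfl ?_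
    intro I _
    rw [Finset.mul_sum, Finset.mul_sum]
    refine Finset.sum_congr rfl ?_
    intro i _
    rw [Finset.mul_sum, Finset.mul_sum]
  refine hmain.trans ?_
  have h5 : ∑ I ∈ B, nm I ^ ((1 / 2) : ℝ) * a ^ 2 *
        ∑ i ∈ S, ∑ ψ : CC (K i), ‖Wb b ψ x I‖ ^ 2 * ‖F i ψ s‖ ^ 2 ≤
      (a ^ 2 * (C₀ * (1 + |s.im|) ^ j * X ^ (3 / 2 + ε)) * x) * A := by
    rw [hA, Finset.mul_sum]
    refine Finset.sum_le_sum ?_
    intro I hI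
    have hI0 : (0 : ℝ) < nm I := by linarith [(hBn I hI).1]
    refine (mul_le_mul_of_nonneg_left (hb1 I hI) (by positivity)).trans (le_of_eq ?_)
    have e : nm I ^ (-(1 / 2) : ℝ) = nm I ^ ((1 / 2) : ℝ) / nm I := by
      rw [eq_div_iff hI0.ne']
      nth_rewrite 2 [← Real.rpow_one (nm I)]
      rw [← Real.rpow_add hI0]
      norm_num
    rw [e]
    ring
  refine (mul_le_mul_of_nonneg_left h5 hA0).trans ?_
  have hx0 : (0 : ℝ) < x := by linarith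
  have e3 : (x ^ (ε / 8)) ^ 2 = x ^ (ε / 4) := by
    rw [← Real.rpow_natCast, ← Real.rpow_mul hx0.le]
    congr 1
    push_cast
    ring
  have e4 : (x ^ (ε / 4)) ^ 2 = x ^ (ε / 2) := by
    rw [← Real.rpow_natCast, ← Real.rpow_mul hx0.le]
    congr 1
    push_cast
    ring
  have e5 : x ^ (ε / 4) * x ^ (ε / 2) * x ≤ x ^ (1 + ε) := by
    nth_rewrite 3 [← Real.rpow_one x]
    rw [← Real.rpow_add hx0, ← Real.rpow_add hx0]
    exact Real.rpow_le_rpow_of_exponent_le hx (by linarith)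
  have hA2 : A * A ≤ C₃ ^ 2 * x ^ (ε / 2) := by
    calc A * A ≤ (C₃ * x ^ (ε / 4)) * (C₃ * x ^ (ε / 4)) :=
          mul_le_mul hAle hAle hA0 (by positivity)
      _ = C₃ ^ 2 * (x ^ (ε / 4)) ^ 2 := by ring
      _ = _ := by rw [e4]
  have hG : 0 ≤ C₀ * (1 + |s.im|) ^ j * X ^ (3 / 2 + ε) := by positivity
  calc A * (a ^ 2 * (C₀ * (1 + |s.im|) ^ j * X ^ (3 / 2 + ε)) * x * A)
      = (A * A) * (C₁ ^ 2 * (x ^ (ε / 8)) ^ 2 * (C₀ * (1 + |s.im|) ^ j * X ^ (3 / 2 + ε)) * x) := by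
        rw [ha]; ring
    _ ≤ (C₃ ^ 2 * x ^ (ε / 2)) *
        (C₁ ^ 2 * (x ^ (ε / 8)) ^ 2 * (C₀ * (1 + |s.im|) ^ j * X ^ (3 / 2 + ε)) * x) :=
        mul_le_mul_of_nonneg_right hA2 (by positivity)
    _ = (C₃ ^ 2 * C₁ ^ 2 * (C₀ * (1 + |s.im|) ^ j * X ^ (3 / 2 + ε))) *
        (x ^ (ε / 4) * x ^ (ε / 2) * x) := by
        rw [e3]; ring
    _ ≤ (C₃ ^ 2 * C₁ ^ 2 * (C₀ * (1 + |s.im|) ^ j * X ^ (3 / 2 + ε))) *
        x ^ (1 + ε) := mul_le_mul_of_nonneg_left e5 (by positivity)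
    _ = _ := by ring

end Pool.Agent.H72.CM4
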