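import Pool.Agent.H95.CM.Targets

/-!
Row VWI of the board cm4_modules (`MP_52e316_nt`): two vectors of an ideal of a quadratic extension,
of bounded index.
-/

set_option autoImplicit false

open MeasureTheory Set Filter NumberField
open scoped Real nonZeroDivisors
open Pool.Agent.H65.CM4
open Pool.Agent.H95.CM
open Pool.Agent.H31.CN (IsLf)
open Pool.Agent.H61.FM (CC pv)

namespace Pool.Agent.H72.CM4

theorem min_elt {α : Type} (S : Set α) (hS : S.Nonempty) (f : α → ℕ) :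
    ∃ w ∈ S, ∀ x ∈ S, f w ≤ f x := by
  obtain ⟨w, hw, hmin⟩ := (measure f).wf.has_min S hS
  exact ⟨w, hw, fun x hx => not_lt.mp (hmin x hx)⟩

theorem exists_v (K : Type) [Field K] [NumberField K] (I : Ideal (𝓞 K)) (hI : I ≠ ⊥) :
    ∃ v ∈ I, v ≠ 0 ∧ (∀ x ∈ I, x ≠ 0 → (Algebra.norm ℤ v).natAbs ≤ (Algebra.norm ℤ x).natAbs) ∧
      |((Algebra.norm ℚ (v : K) : ℚ) : ℝ)| ≤
        (4 / π) ^ (Module.finrank ℚ K) * (Real.sqrt |(discr K : ℝ)| * nm I) := by
  obtain ⟨x0, hx0, hx00⟩ := Submodule.exists_mem_ne_zero_of_ne_bot hI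
  obtain ⟨v, ⟨hv, hv0⟩, hmin⟩ := min_elt {x : 𝓞 K | x ∈ I ∧ x ≠ 0} ⟨x0, hx0, hx00⟩
    (fun x => (Algebra.norm ℤ x).natAbs)
  refine ⟨v, hv, hv0, fun x hx hx0 => hmin x ⟨hx, hx0⟩, ?_⟩
  have hIf : (I : FractionalIdeal (𝓞 K)⁰ K) ≠ 0 := by
    rw [Ne, FractionalIdeal.coeIdeal_eq_zero]
    exact hI
  obtain ⟨a, ha, ha0, hab⟩ := NumberField.exists_ne_zero_mem_ideal_of_norm_le_mul_sqrt_discr K
    (Units.mk0 (I : FractionalIdeal (𝓞 K)⁰ K) hIf)
  rw [Units.val_mk0, FractionalIdeal.mem_coeIdeal] at ha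
  obtain ⟨a', ha', rfl⟩ := ha
  have ha'0 : a' ≠ 0 := by
    rintro rfl
    exact ha0 (map_zero _)
  rw [Units.val_mk0, FractionalIdeal.coeIdeal_absNorm] at hab
  have h1 : (Algebra.norm ℤ v).natAbs ≤ (Algebra.norm ℤ a').natAbs := hmin a' ⟨ha', ha'0⟩
  have h2 : |(Algebra.norm ℚ (v : K) : ℚ)| ≤ |(Algebra.norm ℚ ((a' : 𝓞 K) : K) : ℚ)| := by
    rw [← Algebra.coe_norm_int, ← Algebra.coe_norm_int, ← Int.cast_abs, ← Int.cast_abs,
      Int.cast_le]
    have h3 : (((Algebra.norm ℤ v).natAbs : ℕ) : ℤ) ≤ ((Algebra.norm ℤ a').natAbs : ℕ) := by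
      exact_mod_cast h1
    rwa [Int.natCast_natAbs, Int.natCast_natAbs] at h3
  have h4 : |((Algebra.norm ℚ (v : K) : ℚ) : ℝ)| ≤
      |((Algebra.norm ℚ ((a' : 𝓞 K) : K) : ℚ) : ℝ)| := by
    exact_mod_cast h2
  refine h4.trans ?_
  have h5 : |((Algebra.norm ℚ ((a' : 𝓞 K) : K) : ℚ) : ℝ)| ≤ ((Ideal.absNorm I : ℕ) : ℝ) *
      (4 / π) ^ InfinitePlace.nrComplexPlaces K *
        ((Module.finrank ℚ K).factorial : ℝ) / (Module.finrank ℚ K : ℝ) ^ (Module.finrank ℚ K) *
        Real.sqrt |(discr K : ℝ)| := by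
    exact_mod_cast hab
  refine h5.trans ?_
  have hfin : 0 < Module.finrank ℚ K := Module.finrank_pos
  have h6 : ((Module.finrank ℚ K).factorial : ℝ) / (Module.finrank ℚ K : ℝ) ^ (Module.finrank ℚ K)
      ≤ 1 := by
    rw [div_le_one (by positivity)]
    exact_mod_cast Nat.factorial_le_pow _
  have h7 : (4 / π) ^ InfinitePlace.nrComplexPlaces K ≤ (4 / π) ^ (Module.finrank ℚ K) := by
    refine pow_le_pow_right₀ ?_ ?_
    · rw [le_div_iff₀ Real.pi_pos, one_mul]
      exact Real.pi_le_four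
    · have := InfinitePlace.card_add_two_mul_card_eq_rank K
      omega
  have h8 : 0 ≤ Real.sqrt |(discr K : ℝ)| := Real.sqrt_nonneg _
  have h9 : (0 : ℝ) ≤ ((Ideal.absNorm I : ℕ) : ℝ) := Nat.cast_nonneg _
  have h10 : (0 : ℝ) ≤ (4 / π) ^ InfinitePlace.nrComplexPlaces K := by positivity
  have h11 : (0 : ℝ) ≤ (4 / π) ^ (Module.finrank ℚ K) := by positivity
  unfold nm
  calc ((Ideal.absNorm I : ℕ) : ℝ) * (4 / π) ^ InfinitePlace.nrComplexPlaces K *
        ((Module.finrank ℚ K).factorial : ℝ) / (Module.finrank ℚ K : ℝ) ^ (Module.finrank ℚ K) *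
        Real.sqrt |(discr K : ℝ)|
      = (4 / π) ^ InfinitePlace.nrComplexPlaces K * (((Module.finrank ℚ K).factorial : ℝ) /
        (Module.finrank ℚ K : ℝ) ^ (Module.finrank ℚ K)) *
        (Real.sqrt |(discr K : ℝ)| * ((Ideal.absNorm I : ℕ) : ℝ)) := by ring
    _ ≤ (4 / π) ^ (Module.finrank ℚ K) * 1 *
        (Real.sqrt |(discr K : ℝ)| * ((Ideal.absNorm I : ℕ) : ℝ)) := by
        refine mul_le_mul_of_nonneg_right ?_ (by positivity)
        exact mul_le_mul h7 h6 (by positivity) h11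
    _ = _ := by rw [mul_one]

/-- a functional which vanishes on `v` and is integral on the integers -/
theorem exists_functional (k K : Type) [Field k] [NumberField k] [Field K] [NumberField K]
    [Algebra k K] (h2 : Module.finrank k K = 2) (v : K) (hv : v ≠ 0) :
    ∃ L : K →ₗ[k] k, L v = 0 ∧ L ≠ 0 ∧ (∀ x : 𝓞 K, ∃ y : 𝓞 k, (y : k) = L (x : K)) ∧
      ∀ z, L z = 0 → ∃ κ : k, z = algebraMap k K κ * v := by
  classical
  haveI : FiniteDimensional k K := FiniteDimensional.of_finrank_pos (by rw [h2]; norm_num)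
  have hlt : Submodule.span k {v} < ⊤ := by
    refine lt_top_iff_ne_top.mpr ?_
    intro h
    have h3 : Module.finrank k (Submodule.span k {v}) = 1 := finrank_span_singleton hv
    rw [h, finrank_top, h2] at h3
    norm_num at h3
  obtain ⟨L₀, hL₀, hker⟩ := Submodule.exists_le_ker_of_lt_top _ hlt
  obtain ⟨d, hd⟩ := IsLocalization.exist_integer_multiples (𝓞 k)⁰ Finset.univ
    (fun i => L₀ ((RingOfIntegers.basis K i : 𝓞 K) : K))
  have hd0 : ((d : 𝓞 k) : k) ≠ 0 := by
    intro h0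
    exact nonZeroDivisors.ne_zero d.2 (RingOfIntegers.coe_eq_zero_iff.mp h0)
  have hLv : (((d : 𝓞 k) : k) • L₀) v = 0 := by
    have : L₀ v = 0 := hker (Submodule.mem_span_singleton_self v)
    rw [LinearMap.smul_apply, this, smul_zero]
  have hL : (((d : 𝓞 k) : k) • L₀) ≠ 0 := by
    intro h0
    rcases smul_eq_zero.mp h0 with h | h
    · exact hd0 h
    · exact hL₀ h
  refine ⟨((d : 𝓞 k) : k) • L₀, hLv, hL, ?_, ?_⟩
  · intro x
    choose y hy using fun i => hd i (Finset.mem_univ i)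
    refine ⟨∑ i, (RingOfIntegers.basis K).repr x i • y i, ?_⟩
    have e1 : (x : K) = ∑ i, ((RingOfIntegers.basis K).repr x i) •
        ((RingOfIntegers.basis K i : 𝓞 K) : K) := by
      have e2 : algebraMap (𝓞 K) K x = algebraMap (𝓞 K) K
          (∑ i, ((RingOfIntegers.basis K).repr x i) • RingOfIntegers.basis K i) := by
        rw [(RingOfIntegers.basis K).sum_repr x]
      rw [map_sum] at e2
      refine e2.trans (Finset.sum_congr rfl fun i _ => ?_)
      rw [map_zsmul]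
    rw [e1, map_sum]
    have e3 : ((∑ i, (RingOfIntegers.basis K).repr x i • y i : 𝓞 k) : k) =
        ∑ i, algebraMap (𝓞 k) k ((RingOfIntegers.basis K).repr x i • y i) :=
      map_sum (algebraMap (𝓞 k) k) _ _
    rw [e3]
    refine Finset.sum_congr rfl fun i _ => ?_
    have e4 : (d : 𝓞 k) • L₀ ((RingOfIntegers.basis K i : 𝓞 K) : K) =
        ((d : 𝓞 k) : k) • L₀ ((RingOfIntegers.basis K i : 𝓞 K) : K) := by
      rw [Algebra.smul_def, smul_eq_mul]
    rw [map_zsmul, map_zsmul, hy i, LinearMap.smul_apply]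
    exact congrArg (fun t => (RingOfIntegers.basis K).repr x i • t) e4
  · intro z hz
    have hk1 : Module.finrank k (LinearMap.ker (((d : 𝓞 k) : k) • L₀)) = 1 := by
      have h3 := LinearMap.finrank_range_add_finrank_ker (((d : 𝓞 k) : k) • L₀)
      have h4 : LinearMap.range (((d : 𝓞 k) : k) • L₀) = ⊤ := LinearMap.range_eq_top.mpr
        (LinearMap.surjective hL)
      rw [h4, finrank_top, Module.finrank_self, h2] at h3
      omega
    have h5 := (finrank_eq_one_iff_of_nonzero'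
      (⟨v, hLv⟩ : LinearMap.ker (((d : 𝓞 k) : k) • L₀))
      (by
        intro h0
        exact hv (congrArg Subtype.val h0))).mp hk1 ⟨z, hz⟩
    obtain ⟨κ, hκ⟩ := h5
    refine ⟨κ, ?_⟩
    have h6 := congrArg Subtype.val hκ
    rw [← Algebra.smul_def]
    exact h6.symm

theorem norm_lt_of_mul {k K : Type} [Field k] [NumberField k] [Field K] [NumberField K]
    [Algebra k K] (h2 : Module.finrank k K = 2) (κ : k) (v : K) (hv : v ≠ 0)
    (hκ : |Algebra.norm ℚ κ| < 1) :
    |Algebra.norm ℚ (algebraMap k K κ * v)| < |Algebra.norm ℚ v| := by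
  have h3 : 0 < |Algebra.norm ℚ v| := abs_pos.mpr (Algebra.norm_ne_zero_iff.mpr hv)
  have h4 : Algebra.norm ℚ (algebraMap k K κ) = Algebra.norm ℚ κ ^ 2 := by
    rw [← Algebra.norm_norm (S := k), Algebra.norm_algebraMap, h2, map_pow]
  rw [map_mul, abs_mul, h4, abs_pow]
  have h5 : |Algebra.norm ℚ κ| ^ 2 < 1 := pow_lt_one₀ (abs_nonneg _) hκ two_ne_zero
  nlinarith

theorem natAbs_lt {K : Type} [Field K] [NumberField K] (x y : 𝓞 K)
    (h : |Algebra.norm ℚ (x : K)| < |Algebra.norm ℚ (y : K)|) :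
    (Algebra.norm ℤ x).natAbs < (Algebra.norm ℤ y).natAbs := by
  rw [← Algebra.coe_norm_int, ← Algebra.coe_norm_int, ← Int.cast_abs, ← Int.cast_abs,
    Int.cast_lt] at h
  have h3 : (((Algebra.norm ℤ x).natAbs : ℕ) : ℤ) < ((Algebra.norm ℤ y).natAbs : ℕ) := by
    rwa [Int.natCast_natAbs, Int.natCast_natAbs]
  exact_mod_cast h3

theorem pf_VWI (hHUR : T_HUR) : T_VWI := by
  intro k _ _ _
  obtain ⟨b₀, hb₀, hb⟩ := hHUR k
  refine ⟨b₀ ^ 2, (4 / π) ^ (2 * dg k), by positivity, ?_⟩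
  intro K _ _ _ _ _ I hI
  have h2 : Module.finrank k K = 2 := Algebra.IsQuadraticExtension.finrank_eq_two k K
  obtain ⟨v, hvI, hv0, hvmin, hvn⟩ := exists_v K I hI
  have hvK : (v : K) ≠ 0 := by
    intro h0
    exact hv0 (RingOfIntegers.coe_eq_zero_iff.mp h0)
  obtain ⟨L, hLv, hL0, hLint, hLker⟩ := exists_functional k K h2 (v : K) hvK
  choose l hl using hLint
  -- an element of the ideal outside the kernel
  have hne : ({x : 𝓞 K | x ∈ I ∧ L (x : K) ≠ 0} : Set (𝓞 K)).Nonempty := by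
    obtain ⟨z, hz⟩ : ∃ z, L z ≠ 0 := by
      by_contra h
      push Not at h
      exact hL0 (LinearMap.ext h)
    obtain ⟨m, hm0, hm⟩ := exists_integral_multiples ℤ ℚ ({z} : Finset K)
    have hm1 := hm z (Finset.mem_singleton_self z)
    have hN : (Ideal.absNorm I : ℕ) ≠ 0 := by
      rw [Ne, Ideal.absNorm_eq_zero_iff]
      exact hI
    set zz : 𝓞 K := ⟨m • z, hm1⟩ with hzz
    refine ⟨(Ideal.absNorm I : 𝓞 K) * zz, ?_, ?_⟩
    · exact I.mul_mem_right _ (Ideal.absNorm_mem I)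
    · have e : (((Ideal.absNorm I : 𝓞 K) * zz : 𝓞 K) : K) =
          algebraMap k K ((Ideal.absNorm I : k) * (m : k)) * z := by
        have e1 : (((Ideal.absNorm I : 𝓞 K) * zz : 𝓞 K) : K) =
            algebraMap (𝓞 K) K (Ideal.absNorm I : 𝓞 K) * (m • z) := rfl
        rw [e1, map_natCast, map_mul, map_natCast, map_intCast, zsmul_eq_mul, mul_assoc]
      rw [e, ← Algebra.smul_def, map_smul, smul_eq_mul]
      refine mul_ne_zero (mul_ne_zero ?_ ?_) hz
      · exact_mod_cast hN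
      · exact_mod_cast hm0
  obtain ⟨w, ⟨hwI, hLw⟩, hwmin⟩ := min_elt _ hne (fun x => (Algebra.norm ℤ (l x)).natAbs)
  refine ⟨v, hvI, w, hwI, ?_, ?_, ?_⟩
  · intro x y hxy
    have h3 := congrArg L hxy
    rw [← Algebra.smul_def, ← Algebra.smul_def, map_add, map_smul, map_smul, hLv, smul_zero,
      zero_add, map_zero, smul_eq_mul] at h3
    have hy : y = 0 := (mul_eq_zero.mp h3).resolve_right hLw
    rw [hy, map_zero, zero_mul, add_zero] at hxy
    refine ⟨?_, hy⟩
    have h4 := (mul_eq_zero.mp hxy).resolve_right hvK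
    exact (map_eq_zero _).mp h4
  · intro x hx
    obtain ⟨t, ht, ω, hω⟩ := hb (L (x : K) / L (w : K))
    -- `y` is a multiple of `v`
    set y : 𝓞 K := (t : 𝓞 K) * x - algebraMap (𝓞 k) (𝓞 K) ω * w with hy
    have hyI : y ∈ I := I.sub_mem (I.mul_mem_left _ hx) (I.mul_mem_left _ hwI)
    have hyK : (y : K) = algebraMap k K (t : k) * (x : K) -
        algebraMap k K (ω : k) * (w : K) := by
      have e1 : (y : K) = algebraMap (𝓞 K) K (t : 𝓞 K) * (x : K) -
        algebraMap k K (ω : k) * (w : K) := rfl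
      rw [e1, map_natCast, map_natCast]
    have hLy : L (y : K) = ((t : k) * (L (x : K) / L (w : K)) - (ω : k)) * L (w : K) := by
      rw [hyK, ← Algebra.smul_def, ← Algebra.smul_def, map_sub, map_smul, map_smul, smul_eq_mul,
        smul_eq_mul, sub_mul, mul_assoc, div_mul_cancel₀ _ hLw]
    have hLy0 : L (y : K) = 0 := by
      by_contra hne0
      have h3 := hwmin y ⟨hyI, hne0⟩
      have h4 : (Algebra.norm ℤ (l y)).natAbs < (Algebra.norm ℤ (l w)).natAbs := by
        refine natAbs_lt _ _ ?_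
        rw [hl, hl, hLy, map_mul, abs_mul]
        have h5 : 0 < |Algebra.norm ℚ (L (w : K))| :=
          abs_pos.mpr (Algebra.norm_ne_zero_iff.mpr hLw)
        nlinarith
      exact absurd h3 (not_le.mpr h4)
    obtain ⟨κ, hκ⟩ := hLker _ hLy0
    obtain ⟨t', ht', ω', hω'⟩ := hb κ
    set z : 𝓞 K := (t' : 𝓞 K) * y - algebraMap (𝓞 k) (𝓞 K) ω' * v with hz
    have hzI : z ∈ I := I.sub_mem (I.mul_mem_left _ hyI) (I.mul_mem_left _ hvI)
    have hzK : (z : K) = algebraMap k K ((t' : k) * κ - (ω' : k)) * (v : K) := by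
      have e1 : (z : K) = algebraMap (𝓞 K) K (t' : 𝓞 K) * (y : K) -
        algebraMap k K (ω' : k) * (v : K) := rfl
      rw [e1, map_natCast, hκ, map_sub, map_mul, map_natCast]
      ring
    have hz0 : z = 0 := by
      by_contra hne0
      have h3 := hvmin z hzI hne0
      have h4 : (Algebra.norm ℤ z).natAbs < (Algebra.norm ℤ v).natAbs := by
        refine natAbs_lt _ _ ?_
        rw [hzK]
        exact norm_lt_of_mul h2 _ _ hvK hω'
      exact absurd h3 (not_le.mpr h4)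
    obtain ⟨s, hs⟩ := ht
    obtain ⟨s', hs'⟩ := ht'
    refine ⟨((s : 𝓞 k) * s' * ω', (s : 𝓞 k) * s' * t' * ω), ?_⟩
    have h6 : (t' : K) * (y : K) = algebraMap k K (ω' : k) * (v : K) := by
      have e1 : (z : K) = algebraMap (𝓞 K) K (t' : 𝓞 K) * (y : K) -
        algebraMap k K (ω' : k) * (v : K) := rfl
      have e2 : (z : K) = 0 := by rw [hz0]; exact map_zero (algebraMap (𝓞 K) K)
      rw [e2, map_natCast] at e1
      exact (sub_eq_zero.mp e1.symm)
    have h7 : (y : K) = (t : K) * (x : K) - algebraMap k K (ω : k) * (w : K) := by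
      rw [hyK, map_natCast]
    have e3 : ((((s : 𝓞 k) * s' * ω' : 𝓞 k)) : k) = (s : k) * s' * (ω' : k) := by
      have e1 : ((((s : 𝓞 k) * s' * ω' : 𝓞 k)) : k) =
        algebraMap (𝓞 k) k ((s : 𝓞 k) * s' * ω') := rfl
      rw [e1, map_mul, map_mul, map_natCast, map_natCast]
    have e4 : ((((s : 𝓞 k) * s' * t' * ω : 𝓞 k)) : k) = (s : k) * s' * t' * (ω : k) := by
      have e1 : ((((s : 𝓞 k) * s' * t' * ω : 𝓞 k)) : k) =
        algebraMap (𝓞 k) k ((s : 𝓞 k) * s' * t' * ω) := rfl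
      rw [e1, map_mul, map_mul, map_mul, map_natCast, map_natCast, map_natCast]
    unfold lin
    simp only
    rw [e3, e4]
    have h8 : ((b₀ ^ 2 : ℕ) : K) = (t : K) * s * (t' * s') := by
      have h9 : b₀ ^ 2 = t * s * (t' * s') := by rw [← hs, ← hs', sq]
      rw [h9]
      push_cast
      rfl
    rw [h8]
    simp only [map_mul, map_natCast]
    have h12 : (t : K) * s * (t' * s') * (x : K) =
        s * s' * (t' * ((t : K) * (x : K) - algebraMap k K (ω : k) * (w : K))) +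
        s * s' * t' * algebraMap k K (ω : k) * (w : K) := by ring
    rw [h12, ← h7, h6]
    ring
  · have h3 : Module.finrank ℚ K = 2 * dg k := by
      unfold dg
      rw [← Module.finrank_mul_finrank ℚ k K, h2, mul_comm]
    rw [h3] at hvn
    exact hvn

end Pool.Agent.H72.CM4
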