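import Pool.Agent.H65.CM4.Targets1

/-!
Row NPD of the board cm4_modules (`MP_52e316_nt`): the forms which are not positive definite are far
away.
-/

set_option autoImplicit false

open MeasureTheory Set Filter NumberField NumberField.InfinitePlace Pool.Agent.H65.CM4
open scoped Real

namespace Pool.Agent.H72.CM4

theorem npd_real {B Y p1 p2 p3 q1 q2 q3 : ℝ} (hB : 1 ≤ B) (hY : 1 ≤ Y) (h1 : 0 < p1)
    (h2 : |p2| ≤ B * Y) (h1' : p1 ≤ B * Y) (h3 : p3 ≤ B * Y)
    (hd : Y ^ 2 / B ≤ 4 * p1 * p3 - p2 ^ 2)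
    (hq : q1 ≤ 0 ∨ 4 * q1 * q3 - q2 ^ 2 ≤ 0) :
    1 / (256 * B ^ 4) * Y ^ 2 ≤ (p1 - q1) ^ 2 + (p2 - q2) ^ 2 + (p3 - q3) ^ 2 := by
  have hB0 : 0 < B := by linarith
  have hY0 : 0 < Y := by linarith
  have hYB : 0 < Y ^ 2 / B := by positivity
  have hBY : 0 < B * Y := by positivity
  have hp13 : 0 < p1 * p3 := by nlinarith [sq_nonneg p2]
  have hp3 : 0 < p3 := by
    by_contra h
    push Not at h
    nlinarith
  set t : ℝ := Y / (16 * B ^ 2) with ht
  have ht0 : 0 < t := by positivity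
  have et : 1 / (256 * B ^ 4) * Y ^ 2 = t ^ 2 := by rw [ht]; field_simp; norm_num
  rw [et]
  have htB : 16 * B * (t * B) = Y := by rw [ht]; field_simp
  have hYe : Y ^ 2 / B = 16 * t * B * Y := by
    rw [ht]; field_simp
  have htY : t ≤ B * Y := by
    rw [ht, div_le_iff₀ (by positivity)]
    have : 1 ≤ B * (16 * B ^ 2) := by
      have h1 : 1 ≤ B ^ 2 := one_le_pow₀ hB
      nlinarith
    nlinarith
  rcases hq with hq | hq
  · have h4 : t ≤ p1 := by
      have h5 : 16 * t * B * Y ≤ 4 * p1 * (B * Y) := by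
        have : 4 * p1 * p3 ≤ 4 * p1 * (B * Y) :=
          mul_le_mul_of_nonneg_left h3 (by linarith)
        rw [hYe] at hd
        nlinarith [sq_nonneg p2]
      by_contra h
      push Not at h
      nlinarith
    have h5 : t ≤ p1 - q1 := by linarith
    have h6 : t ^ 2 ≤ (p1 - q1) ^ 2 := pow_le_pow_left₀ ht0.le h5 2
    nlinarith [sq_nonneg (p2 - q2), sq_nonneg (p3 - q3)]
  · by_contra hcon
    push Not at hcon
    have a1 : |p1 - q1| < t := abs_lt_of_sq_lt_sq
      (by nlinarith [sq_nonneg (p2 - q2), sq_nonneg (p3 - q3)]) ht0.le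
    have a2 : |p2 - q2| < t := abs_lt_of_sq_lt_sq
      (by nlinarith [sq_nonneg (p1 - q1), sq_nonneg (p3 - q3)]) ht0.le
    have a3 : |p3 - q3| < t := abs_lt_of_sq_lt_sq
      (by nlinarith [sq_nonneg (p2 - q2), sq_nonneg (p1 - q1)]) ht0.le
    have b1 : |4 * (p1 - q1) * p3| ≤ 4 * t * (B * Y) := by
      rw [abs_mul, abs_mul, abs_of_pos (show (0 : ℝ) < 4 by norm_num), abs_of_pos hp3]
      exact mul_le_mul (mul_le_mul_of_nonneg_left a1.le (by norm_num)) h3 hp3.le (by positivity)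
    have hq1 : |q1| ≤ 2 * (B * Y) := by
      rw [abs_le]
      have := abs_lt.mp a1
      constructor <;> linarith [this.1, this.2]
    have b2 : |4 * q1 * (p3 - q3)| ≤ 4 * (2 * (B * Y)) * t := by
      rw [abs_mul, abs_mul, abs_of_pos (show (0 : ℝ) < 4 by norm_num)]
      exact mul_le_mul (mul_le_mul_of_nonneg_left hq1 (by norm_num)) a3.le (abs_nonneg _)
        (by positivity)
    have hq2 : |p2 + q2| ≤ 3 * (B * Y) := by
      have c1 := abs_lt.mp a2
      have c2 := abs_le.mp h2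
      rw [abs_le]
      constructor <;> linarith [c1.1, c1.2, c2.1, c2.2]
    have b3 : |(p2 - q2) * (p2 + q2)| ≤ t * (3 * (B * Y)) := by
      rw [abs_mul]
      exact mul_le_mul a2.le hq2 (abs_nonneg _) ht0.le
    have c1 := (abs_le.mp b1).2
    have c2 := (abs_le.mp b2).2
    have c3 := (abs_le.mp b3).1
    have e2 : (4 * p1 * p3 - p2 ^ 2) - (4 * q1 * q3 - q2 ^ 2) =
        4 * (p1 - q1) * p3 + 4 * q1 * (p3 - q3) - (p2 - q2) * (p2 + q2) := by ring
    have h7 : 16 * t * B * Y ≤ 4 * t * (B * Y) + 4 * (2 * (B * Y)) * t + t * (3 * (B * Y)) := by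
      rw [hYe] at hd
      linarith
    have h8 : 4 * t * (B * Y) + 4 * (2 * (B * Y)) * t + t * (3 * (B * Y)) = 15 * (t * (B * Y)) := by
      ring
    rw [h8] at h7
    have h9 : 0 < t * (B * Y) := by positivity
    nlinarith

variable (k : Type) [Field k] [NumberField k] [IsTotallyReal k]

/-- NPD -/
theorem pf_NPD (hEMB : T_EMB k) : T_NPD k := by
  intro B hB
  refine ⟨1 / (256 * B ^ 4), by positivity, ?_⟩
  intro y r P Q hy hr hG hQ
  obtain ⟨v, hv⟩ := hQ
  have h := npd_real (p1 := r * (P v).1) (p2 := (P v).2.1) (p3 := (P v).2.2 / r)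
    (q1 := r * rv v (Q.1 : k))
    (q2 := rv v (Q.2.1 : k)) (q3 := rv v (Q.2.2 : k) / r) hB hy (mul_pos hr (hG.pos v)) (hG.b v)
    (hG.a v)
    (by rw [div_le_iff₀ hr]; exact hG.c v)
    (by
      have e : 4 * (r * (P v).1) * ((P v).2.2 / r) = 4 * (P v).1 * (P v).2.2 := by field_simp
      rw [e]
      exact hG.d v)
    (by
      have e : 4 * (r * rv v (Q.1 : k)) * (rv v (Q.2.2 : k) / r) - (rv v (Q.2.1 : k)) ^ 2 =
          rv v (dsc Q : k) := by
        have e1 : ((dsc Q : 𝓞 k) : k) = 4 * ((Q.1 : k) * (Q.2.2 : k)) - (Q.2.1 : k) ^ 2 := by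
          have e2 : ((dsc Q : 𝓞 k) : k) =
              algebraMap (𝓞 k) k (4 * (Q.1 * Q.2.2) - Q.2.1 ^ 2) := rfl
          rw [e2, map_sub, map_mul, map_mul, map_pow, map_ofNat]
        rw [e1, map_sub, map_mul, map_mul, map_pow, map_ofNat]
        field_simp
      rw [e]
      rw [not_and_or, not_lt, not_lt] at hv
      rcases hv with hv | hv
      · left
        exact mul_nonpos_of_nonneg_of_nonpos hr.le hv
      · right
        exact hv)
  refine h.trans ?_
  have h2 : (fun v => (r * ((P v).1 - (rl Q v).1)) ^ 2 + ((P v).2.1 - (rl Q v).2.1) ^ 2 +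
      (((P v).2.2 - (rl Q v).2.2) / r) ^ 2) v ≤ dq r P (rl Q) := by
    unfold dq
    exact Finset.single_le_sum (f := fun v => (r * ((P v).1 - (rl Q v).1)) ^ 2 +
      ((P v).2.1 - (rl Q v).2.1) ^ 2 + (((P v).2.2 - (rl Q v).2.2) / r) ^ 2)
      (fun i _ => by positivity) (Finset.mem_univ v)
  refine le_trans (le_of_eq ?_) h2
  simp only [rl]
  ring

end Pool.Agent.H72.CM4
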