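import Pool.Agent.H95.CM.Targets

/-!
Row HUR of the board cm4_modules (`MP_52e316_nt`): division with a bounded denominator.
-/

set_option autoImplicit false

open MeasureTheory Set Filter NumberField
open scoped Real nonZeroDivisors
open Pool.Agent.H65.CM4
open Pool.Agent.H95.CM
open Pool.Agent.H31.CN (IsLf)
open Pool.Agent.H61.FM (CC pv)

namespace Pool.Agent.H72.CM4

theorem abs_norm_neg {k : Type} [Field k] [NumberField k] (z : k) :
    |Algebra.norm ℚ (-z)| = |Algebra.norm ℚ z| := by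
  have h1 : Algebra.norm ℚ (-1 : k) * Algebra.norm ℚ (-1 : k) = 1 := by
    rw [← map_mul, neg_one_mul, neg_neg, map_one]
  have h2 : |Algebra.norm ℚ (-1 : k)| = 1 := by
    have h3 : |Algebra.norm ℚ (-1 : k)| * |Algebra.norm ℚ (-1 : k)| = 1 := by
      rw [← abs_mul, h1, abs_one]
    nlinarith [abs_nonneg (Algebra.norm ℚ (-1 : k))]
  rw [← neg_one_mul z, map_mul, abs_mul, h2, one_mul]

theorem pf_HUR : T_HUR := by
  intro k _ _
  classical
  have hz := ClassGroup.finsetApprox.zero_notMem (RingOfIntegers.basis k)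
    AbsoluteValue.absIsAdmissible
  refine ⟨(∏ m ∈ ClassGroup.finsetApprox (RingOfIntegers.basis k)
    AbsoluteValue.absIsAdmissible, m).natAbs, ?_, ?_⟩
  · rw [Int.natAbs_pos]
    exact Finset.prod_ne_zero_iff.mpr fun m hm h0 => hz (h0 ▸ hm)
  intro x
  obtain ⟨a, c, hc, rfl⟩ := IsFractionRing.div_surjective (A := 𝓞 k) x
  have hc0 : c ≠ 0 := nonZeroDivisors.ne_zero hc
  obtain ⟨q, r, hr, h⟩ := ClassGroup.exists_mem_finset_approx' (RingOfIntegers.basis k)
    AbsoluteValue.absIsAdmissible a hc0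
  refine ⟨r.natAbs, ?_, ?_⟩
  · exact Int.natAbs_dvd_natAbs.mpr (Finset.dvd_prod_of_mem _ hr)
  have hck : ((c : 𝓞 k) : k) ≠ 0 := by
    intro h0
    exact hc0 (RingOfIntegers.coe_eq_zero_iff.mp h0)
  have key : |Algebra.norm ℚ ((r : k) * ((a : k) / (c : k)) - (q : k))| < 1 := by
    rw [AbsoluteValue.abs_apply, AbsoluteValue.abs_apply] at h
    have h1 : |((Algebra.norm ℤ (r • a - q * c) : ℤ) : ℚ)| < |((Algebra.norm ℤ c : ℤ) : ℚ)| := by
      rw [← Int.cast_abs, ← Int.cast_abs]
      exact_mod_cast h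
    rw [Algebra.coe_norm_int, Algebra.coe_norm_int] at h1
    have h2 : ((r • a - q * c : 𝓞 k) : k) =
        ((r : k) * ((a : k) / (c : k)) - (q : k)) * (c : k) := by
      have e1 : ((r • a - q * c : 𝓞 k) : k) = (r : k) * (a : k) - (q : k) * (c : k) := by
        have e2 : ((r • a - q * c : 𝓞 k) : k) = algebraMap (𝓞 k) k (r • a - q * c) := rfl
        rw [e2, map_sub, map_mul, zsmul_eq_mul, map_mul, map_intCast]
      rw [e1, sub_mul, mul_assoc, div_mul_cancel₀ _ hck]
    rw [h2, map_mul, abs_mul] at h1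
    have h3 : 0 < |Algebra.norm ℚ ((c : 𝓞 k) : k)| := by
      rw [abs_pos]
      exact Algebra.norm_ne_zero_iff.mpr hck
    by_contra hcon
    push Not at hcon
    nlinarith
  rcases Int.natAbs_eq r with h1 | h1
  · refine ⟨q, ?_⟩
    have e : ((r.natAbs : ℕ) : k) = (r : k) := by
      conv_rhs => rw [h1]
      rw [Int.cast_natCast]
    rw [e]
    exact key
  · refine ⟨-q, ?_⟩
    have e : ((r.natAbs : ℕ) : k) = -(r : k) := by
      conv_rhs => rw [h1]
      rw [Int.cast_neg, Int.cast_natCast, neg_neg]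
    have e2 : ((-q : 𝓞 k) : k) = -(q : k) := rfl
    rw [e, e2]
    have e3 : -(r : k) * ((a : k) / (c : k)) - -(q : k) =
        -((r : k) * ((a : k) / (c : k)) - (q : k)) := by ring
    have e4 : -(r : k) * (algebraMap (𝓞 k) k a / algebraMap (𝓞 k) k c) - -(q : k) =
        -((r : k) * ((a : k) / (c : k)) - (q : k)) := e3
    rw [e4, abs_norm_neg]
    exact key

end Pool.Agent.H72.CM4
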